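import Pool.Agent.CMG.Stmts

/-!
Row KER of squad CMG (MP_005a41_gt): integral operators with a continuous kernel are compact.
-/

set_option autoImplicit false

open Set Topology MeasureTheory
open scoped ComplexConjugate

namespace Pool.Agent.CMG.H75

open Pool.Agent.LSG Pool.Agent.CMG

/-- a continuous curve of vectors defines a compact operator into the continuous functions -/
theorem compact_of_curve {K E : Type} [TopologicalSpace K] [CompactSpace K]
    [NormedAddCommGroup E] [InnerProductSpace ℂ E] (G : C(K, E)) :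
    ∃ A : E →L[ℂ] C(K, ℂ), IsCompactOperator A ∧ ∀ v x, A v x = inner ℂ (G x) v := by
  let A₀ : E →ₗ[ℂ] C(K, ℂ) :=
    { toFun := fun v => ⟨fun x => inner ℂ (G x) v, G.continuous.inner continuous_const⟩
      map_add' := by
        intro v w
        ext x
        exact inner_add_right _ _ _
      map_smul' := by
        intro c v
        ext x
        exact inner_smul_right _ _ _ }
  let A : E →L[ℂ] C(K, ℂ) := A₀.mkContinuous ‖G‖ (by
    intro v
    rw [ContinuousMap.norm_le _ (by positivity)]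
    intro x
    exact (norm_inner_le_norm _ _).trans
      (mul_le_mul_of_nonneg_right (G.norm_coe_le_norm x) (norm_nonneg v)))
  have hA : ∀ v x, A v x = inner ℂ (G x) v := fun v x => rfl
  refine ⟨A, ?_, hA⟩
  rw [isCompactOperator_iff_exists_mem_nhds_isCompact_closure_image]
  refine ⟨Metric.closedBall 0 1, Metric.closedBall_mem_nhds 0 one_pos, ?_⟩
  let e : C(K, ℂ) ≃ₜ BoundedContinuousFunction K ℂ :=
    (ContinuousMap.isometryEquivBoundedOfCompact K ℂ).toHomeomorph
  rw [← e.isCompact_image, e.image_closure]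
  refine BoundedContinuousFunction.arzela_ascoli (Metric.closedBall (0 : ℂ) ‖G‖)
    (isCompact_closedBall _ _) _ ?_ ?_
  · rintro f x ⟨g, ⟨v, hv, rfl⟩, rfl⟩
    rw [mem_closedBall_zero_iff] at hv ⊢
    change ‖A v x‖ ≤ ‖G‖
    rw [hA]
    calc ‖inner ℂ (G x) v‖ ≤ ‖G x‖ * ‖v‖ := norm_inner_le_norm _ _
      _ ≤ ‖G‖ * 1 := mul_le_mul (G.norm_coe_le_norm x) hv (norm_nonneg _) (norm_nonneg _)
      _ = ‖G‖ := mul_one _
  · intro x₀
    rw [Metric.equicontinuousAt_iff_right]
    intro ε hε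
    have h1 : ∀ᶠ x in 𝓝 x₀, dist (G x) (G x₀) < ε :=
      G.continuous.continuousAt.eventually (Metric.ball_mem_nhds _ hε)
    filter_upwards [h1] with x hx
    rintro ⟨f, g, ⟨v, hv, rfl⟩, rfl⟩
    rw [mem_closedBall_zero_iff] at hv
    change dist (A v x₀) (A v x) < ε
    rw [hA, hA, dist_comm, dist_eq_norm, ← inner_sub_left]
    calc ‖inner ℂ (G x - G x₀) v‖ ≤ ‖G x - G x₀‖ * ‖v‖ := norm_inner_le_norm _ _
      _ ≤ ‖G x - G x₀‖ * 1 := mul_le_mul_of_nonneg_left hv (norm_nonneg _)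
      _ = dist (G x) (G x₀) := by rw [mul_one, dist_eq_norm]
      _ < ε := hx

theorem ker : KerStmt := by
  intro K _ _ _ _ _ μ _ κ
  -- the curve of the conjugate kernels
  let κ' : C(K × K, ℂ) := ⟨fun q => conj (κ q), Complex.continuous_conj.comp κ.continuous⟩
  let G : C(K, Lp ℂ 2 μ) :=
    ⟨fun x => ContinuousMap.toLp (E := ℂ) 2 μ ℂ (κ'.curry x),
      (ContinuousMap.toLp (E := ℂ) 2 μ ℂ).continuous.comp κ'.curry.continuous⟩
  obtain ⟨A, hA, hAv⟩ := compact_of_curve G
  have hT : IsCompactOperator (⇑((ContinuousMap.toLp (E := ℂ) 2 μ ℂ).comp A)) := by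
    rw [ContinuousLinearMap.coe_comp']
    exact hA.clm_comp (ContinuousMap.toLp (E := ℂ) 2 μ ℂ)
  refine ⟨(ContinuousMap.toLp (E := ℂ) 2 μ ℂ).comp A, hT, ?_⟩
  intro v
  have h1 : ((ContinuousMap.toLp (E := ℂ) 2 μ ℂ).comp A v : K → ℂ) =ᵐ[μ] A v :=
    ContinuousMap.coeFn_toLp (𝕜 := ℂ) μ (A v)
  refine h1.trans (Filter.Eventually.of_forall fun x => ?_)
  change A v x = _
  rw [hAv, L2.inner_def]
  refine integral_congr_ae ?_
  have h2 : (G x : K → ℂ) =ᵐ[μ] κ'.curry x :=
    ContinuousMap.coeFn_toLp (𝕜 := ℂ) μ (κ'.curry x)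
  filter_upwards [h2] with y hy
  rw [hy]
  change inner ℂ (conj (κ (x, y))) (v y) = κ (x, y) * v y
  rw [RCLike.inner_apply, RCLike.conj_conj, mul_comm]

end Pool.Agent.CMG.H75
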